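import Pool.Agent.W205.K5.Stm0

set_option autoImplicit false

namespace Pool.Agent.W152.K5

open Pool.Agent.W205.K5 Finset

lemma pow_cmp (k r n : ℕ) (hk : k ≤ 5) (hr : 1 ≤ r) (h1 : r ≤ n) (h2 : n ≤ k) :
    (1 - 1 / (k : ℝ)) ^ (k - r) ≤ (1 - 1 / (n : ℝ)) ^ (n - r) := by
  have hk1 : 1 ≤ k := by omega
  interval_cases k <;> interval_cases n <;> interval_cases r <;> norm_num

theorem plast (hL : S_LINE) (hE : S_LAST) : ∀ k, 2 ≤ k → k ≤ 5 → PLAST k := by
  intro k hk2 hk5 w g hS hg ρ h0 h1 hc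
  have hkpos : (0 : ℝ) < k := by
    have : 0 < k := by omega
    exact_mod_cast this
  have hk1 : (0 : ℝ) ≤ 1 - 1 / (k : ℝ) := by
    have : (1 : ℝ) ≤ k := by
      have : 1 ≤ k := by omega
      exact_mod_cast this
    rw [sub_nonneg, div_le_one hkpos]
    exact this
  have key : ∀ j ∈ range (k + 1), (1 - 1 / (k : ℝ)) ^ j ≤ w (k - j) := by
    intro j hj
    rw [mem_range] at hj
    rcases Nat.eq_zero_or_pos j with rfl | hjpos
    · simp [hS.wk]
    · rcases Nat.lt_or_ge j k with hjk | hjk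
      · have h := hL k w g hS (k - j) 0 ((1 - 1 / (k : ℝ)) ^ j) (by omega) (by omega) le_rfl
          (pow_nonneg hk1 _) (by
            intro n hn1 hn2
            have h3 := pow_cmp k (k - j) n hk5 (by omega) hn1 hn2
            have h4 : k - (k - j) = j := by omega
            rw [h4] at h3
            simpa using h3)
        simpa using h
      · have : j = k := by omega
        subst this
        simpa using hE j w g hk2 hS hg
  have h5 : (1 - ρ / k) ^ k = ∑ j ∈ range (k + 1),
      (k.choose j : ℝ) * (1 - ρ) ^ (k - j) * ρ ^ j * (1 - 1 / (k : ℝ)) ^ j := by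
    have h6 : (1 - ρ / k) = ρ * (1 - 1 / (k : ℝ)) + (1 - ρ) := by ring
    rw [h6, add_pow]
    apply sum_congr rfl
    intro j _
    rw [mul_pow]
    ring
  have h7 : 1 - ρ ^ k = (1 - ρ / k) ^ k := by linarith
  rw [h7, h5]
  unfold Th
  apply sum_le_sum
  intro j hj
  apply mul_le_mul_of_nonneg_left (key j hj)
  have : (0 : ℝ) ≤ 1 - ρ := by linarith
  positivity

end Pool.Agent.W152.K5
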